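import Pool.Agent.Y862.SQ.Stm2
import Pool.Agent.Y61.SQ.AVG

/-!
# Project SQ, job SQ2-AVG: average of the singular series over families

Adapted from `Pool/Agent/Y61/SQ/AVG.lean` of helper61.
-/

set_option autoImplicit false

namespace Pool.Agent.Y872.SQ

open Finset Filter Pool.Agent.Y862.SQ

section gen

theorem abs_prod_le {α : Type} (s : Finset α) (f : α → ℝ) :
    |∏ h ∈ s, f h| ≤ ∏ h ∈ s, (1 + |f h - 1|) := by
  rw [abs_prod]
  refine prod_le_prod (fun h _ => abs_nonneg _) fun h _ => ?_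
  calc |f h| = |1 + (f h - 1)| := by congr 1; ring
    _ ≤ |(1 : ℝ)| + |f h - 1| := abs_add_le _ _
    _ = _ := by rw [abs_one]

variable {α : Type} [DecidableEq α]

theorem abs_prod_sub_one (s : Finset α) (f : α → ℝ) :
    |∏ h ∈ s, f h - 1| ≤ ∑ g ∈ s, |f g - 1| * ∏ h ∈ s.erase g, (1 + |f h - 1|) := by
  induction s using Finset.induction_on with
  | empty => simp
  | insert a s ha ih =>
    rw [prod_insert ha, sum_insert ha, erase_insert ha]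
    have h1 : f a * ∏ h ∈ s, f h - 1 = (f a - 1) * ∏ h ∈ s, f h + (∏ h ∈ s, f h - 1) := by ring
    rw [h1]
    refine (abs_add_le _ _).trans ?_
    rw [abs_mul]
    have h2 : |f a - 1| * |∏ h ∈ s, f h| ≤ |f a - 1| * ∏ h ∈ s, (1 + |f h - 1|) :=
      mul_le_mul_of_nonneg_left (abs_prod_le s f) (abs_nonneg _)
    have h3 : ∑ g ∈ s, |f g - 1| * ∏ h ∈ s.erase g, (1 + |f h - 1|) ≤
        ∑ g ∈ s, |f g - 1| * ∏ h ∈ (insert a s).erase g, (1 + |f h - 1|) := by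
      refine sum_le_sum fun g hg => ?_
      have hag : a ≠ g := fun h => ha (h ▸ hg)
      rw [erase_insert_of_ne hag, prod_insert (fun h => ha (mem_of_mem_erase h))]
      refine mul_le_mul_of_nonneg_left ?_ (abs_nonneg _)
      have h4 : (0 : ℝ) ≤ ∏ h ∈ s.erase g, (1 + |f h - 1|) := prod_nonneg fun h _ => by positivity
      have h5 := mul_nonneg (abs_nonneg (f a - 1)) h4
      linarith
    linarith

theorem esym (B : Finset α) (k : ℕ) (F : α → ℝ) (hF : ∀ h, 0 ≤ F h) :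
    ∑ H ∈ powersetCard k B, ∏ h ∈ H, F h ≤ (∑ h ∈ B, F h) ^ k := by
  refine (Pool.Agent.H986R2.KSat.esymm_le B F (fun h _ => hF h) k).trans ?_
  have h3 : (0 : ℝ) ≤ (∑ h ∈ B, F h) ^ k := pow_nonneg (sum_nonneg fun h _ => hF h) k
  exact div_le_self h3 (by exact_mod_cast Nat.one_le_iff_ne_zero.2 (Nat.factorial_ne_zero k))

theorem sum_one (B : Finset α) (K : ℕ) (f G : α → ℝ) (hf : ∀ g, 0 ≤ f g) (hG : ∀ g, 0 ≤ G g) :
    ∑ U ∈ powersetCard (K + 1) B, ∑ g ∈ U, f g * ∏ h ∈ U.erase g, G h ≤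
      (∑ g ∈ B, f g) * (∑ g ∈ B, G g) ^ K := by
  have h1 : ∀ U ∈ powersetCard (K + 1) B, ∑ g ∈ U, f g * ∏ h ∈ U.erase g, G h =
      ∑ g ∈ B, if g ∈ U then f g * ∏ h ∈ U.erase g, G h else 0 := by
    intro U hU
    rw [mem_powersetCard] at hU
    rw [← sum_filter]
    refine sum_congr ?_ fun _ _ => rfl
    ext g
    rw [mem_filter]
    exact ⟨fun h => ⟨hU.1 h, h⟩, fun h => h.2⟩
  rw [sum_congr rfl h1, sum_comm, sum_mul]
  refine sum_le_sum fun g _ => ?_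
  rw [← sum_filter, ← mul_sum]
  refine mul_le_mul_of_nonneg_left ?_ (hf g)
  refine le_trans ?_ (esym B K G hG)
  have hinj : Set.InjOn (fun U : Finset α => U.erase g)
      ((powersetCard (K + 1) B).filter (fun U => g ∈ U)) := by
    intro H hH H' hH' h
    rw [mem_coe, mem_filter] at hH hH'
    simp only at h
    rw [← insert_erase hH.2, ← insert_erase hH'.2, h]
  rw [← sum_image (f := fun H => ∏ h ∈ H, G h) hinj]
  refine sum_le_sum_of_subset_of_nonneg ?_ (fun H _ _ => prod_nonneg fun h _ => hG h)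
  intro H hH
  rw [mem_image] at hH
  obtain ⟨H', hH', rfl⟩ := hH
  rw [mem_filter, mem_powersetCard] at hH'
  rw [mem_powersetCard]
  refine ⟨(erase_subset _ _).trans hH'.1.1, ?_⟩
  rw [card_erase_of_mem hH'.2, hH'.1.2]
  rfl

/-- first error -/
theorem err_one (B : Finset α) (K : ℕ) (f : α → ℝ) (T x : ℝ) (hT : 0 ≤ T) (hx0 : 0 ≤ x)
    (h1 : ∑ g ∈ B, |f g - 1| ≤ T * x) (h2 : ∑ g ∈ B, (1 + |f g - 1|) ≤ T) :
    ∑ U ∈ powersetCard K B, |∏ h ∈ U, f h - 1| ≤ T ^ K * x := by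
  rcases K with _ | K
  · rw [powersetCard_zero, sum_singleton, prod_empty]
    simp
    exact hx0
  · refine (sum_le_sum fun U _ => abs_prod_sub_one U f).trans ?_
    refine (sum_one B K (fun g => |f g - 1|) (fun g => 1 + |f g - 1|)
      (fun g => abs_nonneg _) (fun g => by positivity)).trans ?_
    have h3 : (∑ g ∈ B, (1 + |f g - 1|)) ^ K ≤ T ^ K :=
      pow_le_pow_left₀ (sum_nonneg fun g _ => by positivity) h2 K
    calc _ ≤ (T * x) * T ^ K :=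
          mul_le_mul h1 h3 (pow_nonneg (sum_nonneg fun g _ => by positivity) K) (by positivity)
      _ = _ := by ring

/-- sum over the sets containing two given elements -/
theorem sum_two (k : ℕ) (B : Finset α) (a b : α) (hab : a ≠ b) (F : α → ℝ) (hF : ∀ h, 0 ≤ F h) :
    ∑ H ∈ (powersetCard (k + 2) B).filter (fun H => a ∈ H ∧ b ∈ H), ∏ h ∈ H, F h ≤
      F a * F b * (∑ h ∈ B, F h) ^ k := by
  have h1 : ∀ H ∈ (powersetCard (k + 2) B).filter (fun H => a ∈ H ∧ b ∈ H),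
      ∏ h ∈ H, F h = F a * F b * ∏ h ∈ (H.erase a).erase b, F h := by
    intro H hH
    rw [mem_filter] at hH
    rw [← mul_prod_erase H F hH.2.1, ← mul_prod_erase (H.erase a) F
      (mem_erase.2 ⟨hab.symm, hH.2.2⟩), mul_assoc]
  rw [sum_congr rfl h1, ← mul_sum]
  refine mul_le_mul_of_nonneg_left ?_ (mul_nonneg (hF a) (hF b))
  have hinj : Set.InjOn (fun H : Finset α => (H.erase a).erase b)
      ((powersetCard (k + 2) B).filter (fun H => a ∈ H ∧ b ∈ H)) := by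
    intro H hH H' hH' h
    rw [mem_coe, mem_filter] at hH hH'
    have e1 : ∀ H : Finset α, a ∈ H → b ∈ H → H = insert a (insert b ((H.erase a).erase b)) := by
      intro H ha hb
      rw [insert_erase (mem_erase.2 ⟨hab.symm, hb⟩), insert_erase ha]
    simp only at h
    rw [e1 H hH.2.1 hH.2.2, e1 H' hH'.2.1 hH'.2.2, h]
  refine le_trans ?_ (esym B k F hF)
  rw [← sum_image (f := fun H => ∏ h ∈ H, F h) hinj]
  refine sum_le_sum_of_subset_of_nonneg ?_ (fun H _ _ => prod_nonneg fun h _ => hF h)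
  intro H hH
  rw [mem_image] at hH
  obtain ⟨H', hH', rfl⟩ := hH
  rw [mem_filter, mem_powersetCard] at hH'
  obtain ⟨⟨h1, h2⟩, h3, h4⟩ := hH'
  rw [mem_powersetCard]
  refine ⟨((erase_subset _ _).trans (erase_subset _ _)).trans h1, ?_⟩
  rw [card_erase_of_mem (mem_erase.2 ⟨hab.symm, h4⟩), card_erase_of_mem h3, h2]
  omega

theorem sum_offd (B : Finset α) (f : α × α → ℝ) :
    ∑ z ∈ B.offDiag, f z = ∑ g ∈ B, ∑ g' ∈ B.erase g, f (g, g') := by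
  have h0 : B.offDiag = (B ×ˢ B).filter (fun z => z.1 ≠ z.2) := by
    ext z
    rw [mem_offDiag, mem_filter, mem_product]
    tauto
  rw [h0, sum_filter, sum_product]
  refine sum_congr rfl fun g _ => ?_
  rw [← sum_filter]
  refine sum_congr ?_ fun _ _ => rfl
  ext g'
  rw [mem_filter, mem_erase]
  simp only [ne_eq]
  constructor
  · rintro ⟨h1, h2⟩
    exact ⟨fun h => h2 h.symm, h1⟩
  · rintro ⟨h1, h2⟩
    exact ⟨h2, fun h => h1 h.symm⟩

theorem sum_off (B : Finset α) (F : α → ℝ) (D : α × α → ℝ) (b : ℝ) (hD : ∀ z, 0 ≤ D z)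
    (h1 : ∀ g ∈ B, ∑ g' ∈ B.erase g, D (g, g') ≤ b) (hs : ∀ g g', D (g, g') = D (g', g)) :
    ∑ z ∈ B.offDiag, D z * (F z.1 * F z.2) ≤ (∑ h ∈ B, F h ^ 2) * b := by
  have h0 : ∀ z ∈ B.offDiag, D z * (F z.1 * F z.2) ≤
      (1 / 2) * (D z * F z.1 ^ 2) + (1 / 2) * (D z * F z.2 ^ 2) := by
    intro z _
    have := mul_nonneg (hD z) (sq_nonneg (F z.1 - F z.2))
    nlinarith
  refine (sum_le_sum h0).trans ?_
  rw [sum_add_distrib, ← mul_sum, ← mul_sum]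
  have h2 : ∑ z ∈ B.offDiag, D z * F z.1 ^ 2 ≤ (∑ h ∈ B, F h ^ 2) * b := by
    rw [sum_offd, sum_mul]
    refine sum_le_sum fun g hg => ?_
    simp only
    rw [← sum_mul, mul_comm]
    exact mul_le_mul_of_nonneg_left (h1 g hg) (sq_nonneg _)
  have h3 : ∑ z ∈ B.offDiag, D z * F z.2 ^ 2 = ∑ z ∈ B.offDiag, D z * F z.1 ^ 2 := by
    refine sum_bij' (fun z _ => (z.2, z.1)) (fun z _ => (z.2, z.1)) ?_ ?_ ?_ ?_ ?_
    · intro z hz
      rw [mem_offDiag] at hz ⊢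
      exact ⟨hz.2.1, hz.1, hz.2.2.symm⟩
    · intro z hz
      rw [mem_offDiag] at hz ⊢
      exact ⟨hz.2.1, hz.1, hz.2.2.symm⟩
    · intro z _
      rfl
    · intro z _
      rfl
    · intro z _
      have := hs z.1 z.2
      simp only
      rw [← this]
  rw [h3]
  linarith

/-- second error -/
theorem err_two_aux (k : ℕ) (B : Finset α) (F : α → ℝ) (D : α × α → ℝ) (hF : ∀ h, 0 ≤ F h)
    (hD : ∀ z, 0 ≤ D z) :
    ∑ U ∈ powersetCard (k + 2) B, (∏ h ∈ U, F h) * ∑ z ∈ U.offDiag, D z ≤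
      (∑ h ∈ B, F h) ^ k * ∑ z ∈ B.offDiag, D z * (F z.1 * F z.2) := by
  have h1 : ∀ H ∈ powersetCard (k + 2) B,
      (∏ h ∈ H, F h) * ∑ z ∈ H.offDiag, D z =
      ∑ z ∈ B.offDiag, if (z.1 ∈ H ∧ z.2 ∈ H) then D z * ∏ h ∈ H, F h else 0 := by
    intro H hH
    rw [mem_powersetCard] at hH
    rw [← Finset.sum_filter, mul_sum]
    refine Finset.sum_congr ?_ (fun _ _ => mul_comm _ _)
    ext x
    rw [mem_filter, mem_offDiag, mem_offDiag]
    constructor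
    · rintro ⟨a1, a2, a3⟩
      exact ⟨⟨hH.1 a1, hH.1 a2, a3⟩, a1, a2⟩
    · rintro ⟨⟨_, _, a3⟩, a1, a2⟩
      exact ⟨a1, a2, a3⟩
  rw [sum_congr rfl h1, sum_comm, mul_sum]
  refine sum_le_sum fun z hz => ?_
  rw [← sum_filter, ← mul_sum]
  rw [mem_offDiag] at hz
  have h3 := mul_le_mul_of_nonneg_left (sum_two k B z.1 z.2 hz.2.2 F hF) (hD z)
  exact h3.trans (le_of_eq (by ring))

theorem err_two (B : Finset α) (K : ℕ) (F : α → ℝ) (D : α × α → ℝ) (T b : ℝ) (hT : 0 ≤ T)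
    (hb : 0 ≤ b) (hF : ∀ h, 0 ≤ F h) (hD : ∀ z, 0 ≤ D z)
    (h1 : ∀ g ∈ B, ∑ g' ∈ B.erase g, D (g, g') ≤ T * b) (hs : ∀ g g', D (g, g') = D (g', g))
    (h2 : ∑ g ∈ B, F g ≤ T) (h3 : ∑ g ∈ B, F g ^ 2 ≤ 2 * T) :
    ∑ U ∈ powersetCard K B, (∏ h ∈ U, F h) * ∑ z ∈ U.offDiag, D z ≤ T ^ K * (2 * b) := by
  rcases K with _ | _ | K
  · rw [powersetCard_zero, sum_singleton, offDiag_empty, sum_empty, mul_zero]
    positivity
  · have h4 : ∀ U ∈ powersetCard (0 + 1) B, (∏ h ∈ U, F h) * ∑ z ∈ U.offDiag, D z = 0 := by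
      intro U hU
      rw [mem_powersetCard] at hU
      obtain ⟨g, hg⟩ := Finset.card_eq_one.1 hU.2
      rw [hg, offDiag_singleton, sum_empty, mul_zero]
    rw [sum_eq_zero h4]
    positivity
  · refine (err_two_aux K B F D hF hD).trans ?_
    have h5 := sum_off B F D (T * b) hD h1 hs
    have h6 : (∑ h ∈ B, F h) ^ K ≤ T ^ K :=
      pow_le_pow_left₀ (sum_nonneg fun g _ => hF g) h2 K
    have h7 : (∑ h ∈ B, F h ^ 2) * (T * b) ≤ (2 * T) * (T * b) :=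
      mul_le_mul_of_nonneg_right h3 (by positivity)
    calc _ ≤ T ^ K * ((2 * T) * (T * b)) :=
          mul_le_mul h6 (h5.trans h7)
            (sum_nonneg fun z _ => mul_nonneg (hD z) (mul_nonneg (hF _) (hF _))) (by positivity)
      _ = _ := by ring

end gen

/-! ### the quantities -/

theorem rP_le (H : Finset (ℕ × ℤ)) (p : ℕ) : rP H p ≤ p := by
  unfold rP
  exact (card_filter_le _ _).trans (by rw [card_range])

theorem VP_split (H : Finset (ℕ × ℤ)) {w y : ℕ} (h : w ≤ y) :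
    VP H y = VP H w * VPT H w y := by
  unfold VP VPT
  rw [← prod_filter_mul_prod_filter_not (pr y) (fun p => w < p),
    Pool.Agent.Y61.SQ.pr_filter h, mul_comm]

theorem VP_nonneg (H : Finset (ℕ × ℤ)) (y : ℕ) : 0 ≤ VP H y := by
  unfold VP
  refine prod_nonneg fun p hp => ?_
  have h1 : (0 : ℝ) < p := by exact_mod_cast (Pool.Agent.Y61.SQ.mem_pr.1 hp).1.pos
  have h2 : (rP H p : ℝ) ≤ p := by exact_mod_cast rP_le H p
  rw [sub_nonneg, div_le_one h1]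
  exact h2

theorem VP_le_one (H : Finset (ℕ × ℤ)) (y : ℕ) : VP H y ≤ 1 := by
  unfold VP
  refine prod_le_one (fun p hp => ?_) fun p hp => ?_
  · have h1 : (0 : ℝ) < p := by exact_mod_cast (Pool.Agent.Y61.SQ.mem_pr.1 hp).1.pos
    have h2 : (rP H p : ℝ) ≤ p := by exact_mod_cast rP_le H p
    rw [sub_nonneg, div_le_one h1]
    exact h2
  · have : (0 : ℝ) ≤ (rP H p : ℝ) / p := by positivity
    linarith

theorem V1_le_one (y : ℕ) : V1 y ≤ 1 := by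
  unfold V1
  refine prod_le_one (fun p hp => ?_) fun p hp => ?_
  · exact (Pool.Agent.Y61.SQ.fac_pos (Pool.Agent.Y61.SQ.mem_pr.1 hp).1).le
  · have : (0 : ℝ) ≤ 1 / (p : ℝ) := by positivity
    linarith

theorem Fz_nonneg (w y : ℕ) (s : ℤ) : 0 ≤ Fz w y s := by
  unfold Fz
  refine prod_nonneg fun p hp => ?_
  have h1 : (2 : ℝ) ≤ p := by
    exact_mod_cast (Pool.Agent.Y61.SQ.mem_pr.1 (mem_filter.1 hp).1).1.two_le
  have h2 : (lez s p : ℝ) ≤ 1 := by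
    unfold lez
    rcases jacobiSym.trichotomy (-s) p with h | h | h <;> rw [h] <;> norm_num
  rw [sub_nonneg, div_le_one (by linarith)]
  linarith

theorem DR_ge (K w : ℕ) (g g' : ℕ × ℤ) : 0 ≤ DR K w g g' - 1 := by
  unfold DR
  rw [sub_nonneg]
  calc (1 : ℝ) = ∏ p ∈ (Rr g g').natAbs.primeFactors.filter (fun p => w < p), (1 : ℝ) := by simp
    _ ≤ _ := prod_le_prod (fun _ _ => zero_le_one) fun p _ => by
        have : (0 : ℝ) ≤ (K : ℝ) / p := by positivity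
        linarith

theorem Rr_comm (g g' : ℕ × ℤ) : Rr g g' = Rr g' g := by
  unfold Rr
  ring

theorem DR_comm (K w : ℕ) (g g' : ℕ × ℤ) : DR K w g g' = DR K w g' g := by
  unfold DR
  rw [Rr_comm]

theorem Rr_ne (g g' : ℕ × ℤ) (hg : ¬ IsSquare (-g.2)) (hne : g ≠ g') : Rr g g' ≠ 0 := by
  intro h
  unfold Rr at h
  by_cases hD : ((g'.1 : ℤ) - g.1) = 0
  · rw [hD] at h
    have h1 : (g'.2 - g.2) ^ 2 = 0 := by linarith
    have h2 : g'.2 - g.2 = 0 := by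
      rcases pow_eq_zero_iff (two_ne_zero) |>.1 h1 with h3
      exact h3
    apply hne
    refine Prod.ext ?_ ?_
    · omega
    · omega
  · set D : ℤ := (g'.1 : ℤ) - g.1 with hDd
    have h1 : (D ^ 2 + g'.2 - g.2) ^ 2 = (2 * D) ^ 2 * (-g.2) := by
      linear_combination h
    have h2 : (2 * D) ^ 2 ∣ (D ^ 2 + g'.2 - g.2) ^ 2 := ⟨_, h1⟩
    have h3 : 2 * D ∣ D ^ 2 + g'.2 - g.2 := (Int.pow_dvd_pow_iff two_ne_zero).1 h2
    obtain ⟨m, hm⟩ := h3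
    rw [hm, mul_pow] at h1
    have h4 : (2 * D) ^ 2 ≠ 0 := pow_ne_zero 2 (mul_ne_zero two_ne_zero hD)
    have h5 := mul_left_cancel₀ h4 h1
    exact hg ⟨m, by rw [← h5]; ring⟩

/-! ### the families -/

theorem mem_Wn {a : ℕ} {c : ℤ} {L : ℕ} {g : ℕ × ℤ} :
    g ∈ Wn a c L ↔ g.1 = a ∧ c < g.2 ∧ g.2 ≤ c + L ∧ ¬ IsSquare (-g.2) := by
  unfold Wn
  rw [mem_image]
  constructor
  · rintro ⟨s, hs, rfl⟩
    rw [mem_filter, mem_Ioc] at hs
    exact ⟨rfl, hs.1.1, hs.1.2, hs.2⟩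
  · rintro ⟨h1, h2, h3, h4⟩
    refine ⟨g.2, ?_, ?_⟩
    · rw [mem_filter, mem_Ioc]
      exact ⟨⟨h2, h3⟩, h4⟩
    · rw [← h1]

theorem Wn_disj {k M : ℕ} {a : Fin k → ℕ} {c : Fin k → ℤ} {L : Fin k → ℕ} (hW : Win M a c L)
    {i j : Fin k} {g : ℕ × ℤ} (hi : g ∈ Wn (a i) (c i) (L i)) (hj : g ∈ Wn (a j) (c j) (L j)) :
    i = j := by
  by_contra hne
  rw [mem_Wn] at hi hj
  have h1 : a i = a j := hi.1.symm.trans hj.1
  rcases hW.2 i j hne h1 with h | h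
  · omega
  · omega

theorem mem_fam {k : ℕ} {a : Fin k → ℕ} {c : Fin k → ℤ} {L r : Fin k → ℕ}
    {H : Fin k → Finset (ℕ × ℤ)} :
    H ∈ fam a c L r ↔ ∀ j, H j ⊆ Wn (a j) (c j) (L j) ∧ (H j).card = r j := by
  unfold fam
  rw [Fintype.mem_piFinset]
  simp only [mem_powersetCard]

theorem mem_un {k : ℕ} {H : Fin k → Finset (ℕ × ℤ)} {g : ℕ × ℤ} : g ∈ un H ↔ ∃ j, g ∈ H j := by
  unfold un
  rw [mem_biUnion]
  simp only [mem_univ, true_and]

open Classical in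
/-- the ambient set -/
noncomputable def Zs (M : ℕ) : Finset ℤ := (Icc (-(M : ℤ)) M).filter (fun s => ¬ IsSquare (-s))

theorem mem_Zs {M : ℕ} {s : ℤ} : s ∈ Zs M ↔ (-(M : ℤ) ≤ s ∧ s ≤ M) ∧ ¬ IsSquare (-s) := by
  unfold Zs
  rw [mem_filter, mem_Icc]

theorem un_sub {k M : ℕ} {a : Fin k → ℕ} {c : Fin k → ℤ} {L r : Fin k → ℕ} (hW : Win M a c L)
    {H : Fin k → Finset (ℕ × ℤ)} (hH : H ∈ fam a c L r) :
    un H ⊆ (univ.image a) ×ˢ Zs M := by
  intro g hg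
  rw [mem_un] at hg
  obtain ⟨j, hj⟩ := hg
  have h1 := mem_Wn.1 ((mem_fam.1 hH j).1 hj)
  have h2 := hW.1 j
  rw [mem_product, mem_image, mem_Zs]
  exact ⟨⟨j, mem_univ _, h1.1.symm⟩, ⟨by omega, by omega⟩, h1.2.2.2⟩

theorem un_card {k M : ℕ} {a : Fin k → ℕ} {c : Fin k → ℤ} {L r : Fin k → ℕ} (hW : Win M a c L)
    {H : Fin k → Finset (ℕ × ℤ)} (hH : H ∈ fam a c L r) : (un H).card = ∑ j, r j := by
  unfold un
  rw [card_biUnion]
  · exact sum_congr rfl fun j _ => (mem_fam.1 hH j).2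
  · intro i _ j _ hne
    change Disjoint (H i) (H j)
    rw [Finset.disjoint_left]
    intro g hi hj
    exact hne (Wn_disj hW ((mem_fam.1 hH i).1 hi) ((mem_fam.1 hH j).1 hj))

theorem un_inj {k M : ℕ} {a : Fin k → ℕ} {c : Fin k → ℤ} {L r : Fin k → ℕ} (hW : Win M a c L) :
    Set.InjOn (fun H : Fin k → Finset (ℕ × ℤ) => un H) (fam a c L r) := by
  have key : ∀ H H' : Fin k → Finset (ℕ × ℤ), H ∈ fam a c L r → H' ∈ fam a c L r →
      un H = un H' → ∀ j, H j ⊆ H' j := by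
    intro H H' hH hH' h j g hg
    have h1 : g ∈ un H' := by
      rw [← h, mem_un]
      exact ⟨j, hg⟩
    rw [mem_un] at h1
    obtain ⟨i, hi⟩ := h1
    have h2 := Wn_disj hW ((mem_fam.1 hH j).1 hg) ((mem_fam.1 hH' i).1 hi)
    rw [h2]
    exact hi
  intro H hH H' hH' h
  rw [mem_coe] at hH hH'
  simp only at h
  funext j
  exact Subset.antisymm (key H H' hH hH' h j) (key H' H hH' hH h.symm j)

theorem fam_le {k M : ℕ} {a : Fin k → ℕ} {c : Fin k → ℤ} {L r : Fin k → ℕ} (hW : Win M a c L)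
    (f : Finset (ℕ × ℤ) → ℝ) (hf : ∀ U, 0 ≤ f U) :
    ∑ H ∈ fam a c L r, f (un H) ≤
      ∑ U ∈ powersetCard (∑ j, r j) ((univ.image a) ×ˢ Zs M), f U := by
  classical
  rw [← sum_image (f := f) (un_inj hW)]
  refine sum_le_sum_of_subset_of_nonneg ?_ (fun U _ _ => hf U)
  intro U hU
  rw [mem_image] at hU
  obtain ⟨H, hH, rfl⟩ := hU
  rw [mem_powersetCard]
  exact ⟨un_sub hW hH, un_card hW hH⟩

/-! ### sums over the ambient set -/

theorem card_Icc_int (M : ℕ) : ((Icc (-(M : ℤ)) M).card : ℝ) = 2 * M + 1 := by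
  rw [Int.card_Icc]
  have : ((M : ℤ) + 1 - -(M : ℤ)).toNat = 2 * M + 1 := by omega
  rw [this]
  push_cast
  ring

theorem card_A {k : ℕ} (a : Fin k → ℕ) : (((univ : Finset (Fin k)).image a).card : ℝ) ≤ k := by
  have := card_image_le (s := (univ : Finset (Fin k))) (f := a)
  rw [card_univ, Fintype.card_fin] at this
  exact_mod_cast this

theorem sum_B {k M : ℕ} (a : Fin k → ℕ) (f : ℤ → ℝ) (hf : ∀ s, 0 ≤ f s) :
    ∑ g ∈ (univ.image a) ×ˢ Zs M, f g.2 ≤ k * ∑ s ∈ Icc (-(M : ℤ)) M, f s := by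
  rw [sum_product]
  simp only [sum_const, nsmul_eq_mul]
  have h1 : ∑ s ∈ Zs M, f s ≤ ∑ s ∈ Icc (-(M : ℤ)) M, f s := by
    refine sum_le_sum_of_subset_of_nonneg ?_ (fun s _ _ => hf s)
    intro s hs
    rw [mem_Zs] at hs
    rw [mem_Icc]
    exact hs.1
  exact mul_le_mul (card_A a) h1 (sum_nonneg fun s _ => hf s) (by positivity)

theorem abs_core {v P E t a Y : ℝ} (hv0 : 0 ≤ v) (hv1 : v ≤ 1) (ha : 0 ≤ a) (ht0 : 0 ≤ t)
    (ht1 : t ≤ 1) (hP : 0 ≤ P) (hE : 0 ≤ E) (h1 : a * P * (1 - t) ≤ Y) (h2 : Y ≤ a * P * (1 + E)) :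
    |v * Y - a * v| ≤ a * (t + |P - 1| + P * E) := by
  have e1 : v * P ≤ v + |P - 1| := Pool.Agent.Y61.SQ.up_aux hv0 hv1
  have e2 : v - |P - 1| ≤ v * P := Pool.Agent.Y61.SQ.low_aux hv0 hv1
  have e3 := abs_nonneg (P - 1)
  have e4 : 0 ≤ P * E := mul_nonneg hP hE
  rw [abs_le]
  constructor
  · have f1 : v * (a * P * (1 - t)) ≤ v * Y := mul_le_mul_of_nonneg_left h1 hv0
    have f2 : (1 - t) * (v - |P - 1|) ≤ (1 - t) * (v * P) :=
      mul_le_mul_of_nonneg_left e2 (by linarith)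
    have f3 : a * ((1 - t) * (v - |P - 1|)) ≤ a * ((1 - t) * (v * P)) :=
      mul_le_mul_of_nonneg_left f2 ha
    have f4 : v * (a * P * (1 - t)) = a * ((1 - t) * (v * P)) := by ring
    have f5 : a * v - a * ((1 - t) * (v - |P - 1|)) ≤ a * (t + |P - 1| + P * E) := by
      have : a * v - a * ((1 - t) * (v - |P - 1|)) = a * (t * v + (1 - t) * |P - 1|) := by ring
      rw [this]
      refine mul_le_mul_of_nonneg_left ?_ ha
      have g1 : t * v ≤ t := mul_le_of_le_one_right ht0 hv1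
      have g2 : (1 - t) * |P - 1| ≤ |P - 1| := mul_le_of_le_one_left e3 (by linarith)
      linarith
    linarith
  · have f1 : v * Y ≤ v * (a * P * (1 + E)) := mul_le_mul_of_nonneg_left h2 hv0
    have f2 : v * (a * P * (1 + E)) - a * v = a * ((v * P - v) + v * (P * E)) := by ring
    have f3 : a * ((v * P - v) + v * (P * E)) ≤ a * (t + |P - 1| + P * E) := by
      refine mul_le_mul_of_nonneg_left ?_ ha
      have g1 : v * (P * E) ≤ P * E := mul_le_of_le_one_left e4 hv1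
      linarith
    linarith

set_option maxHeartbeats 4000000 in
theorem core (k K M w y : ℕ) (x C : ℝ) (hM : 1 ≤ M) (hw : 4 * K + 2 ≤ w)
    (hwy : w ≤ y) (hx0 : 0 ≤ x) (hx1 : x ≤ 1) (hC0 : 0 ≤ C) (hxw : (w : ℝ)⁻¹ ≤ x)
    (ht1 : 4 * (K : ℝ) ^ 2 / w ≤ 1) (h3 : S_TAILZ)
    (hFM : ∑ s ∈ Icc (-(M : ℤ)) M, (Fz w y s - 1) ^ 2 ≤ M * x ^ 2)
    (hCO : ∀ (g : ℕ × ℤ) (a' : ℕ), g.1 ≤ M → a' ≤ M → |g.2| ≤ M → ¬ IsSquare (-g.2) →
      ∑ s ∈ (Zs M).filter (fun s => (a', s) ≠ g),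
        (DR ((1 + 4 * K) ^ (K ^ 2) - 1) w g (a', s) - 1) ≤ C * (M : ℝ) / w)
    (a : Fin k → ℕ) (c : Fin k → ℤ) (L r : Fin k → ℕ) (hW : Win M a c L) (hr : ∑ j, r j = K) :
    |∑ H ∈ fam a c L r, VP (un H) y - V1t w y ^ K * ∑ H ∈ fam a c L r, VP (un H) w| ≤
      V1t w y ^ K * ((6 * k * M) ^ K * ((4 * K ^ 2 + 1 + 2 * C) * x)) := by
  have hM1 : (1 : ℝ) ≤ M := by exact_mod_cast hM
  have hw1 : (1 : ℝ) ≤ w := by exact_mod_cast (by omega : 1 ≤ w)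
  have hwpos : (0 : ℝ) < w := by linarith
  have hk0 : (0 : ℝ) ≤ k := Nat.cast_nonneg k
  obtain ⟨B, hB⟩ : ∃ B : Finset (ℕ × ℤ), B = (univ.image a) ×ˢ Zs M := ⟨_, rfl⟩
  obtain ⟨T, hT⟩ : ∃ T : ℝ, T = 6 * k * M := ⟨_, rfl⟩
  have hT0 : 0 ≤ T := by rw [hT]; positivity
  have hG : ∑ s ∈ Icc (-(M : ℤ)) M, |Fz w y s - 1| ≤ 2 * M * x := by
    apply le_of_sq_le_sq _ (by positivity)
    have e1 := sq_sum_le_card_mul_sum_sq (s := Icc (-(M : ℤ)) M) (f := fun s => |Fz w y s - 1|)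
    simp only [sq_abs] at e1
    rw [card_Icc_int] at e1
    calc _ ≤ (2 * (M : ℝ) + 1) * ∑ s ∈ Icc (-(M : ℤ)) M, (Fz w y s - 1) ^ 2 := e1
      _ ≤ (2 * (M : ℝ) + 1) * (M * x ^ 2) := by gcongr
      _ ≤ (4 * (M : ℝ)) * (M * x ^ 2) := by
          refine mul_le_mul_of_nonneg_right (by linarith) (by positivity)
      _ = _ := by ring
  have hf1 : ∑ g ∈ B, |Fz w y g.2 - 1| ≤ T * x := by
    rw [hB]
    refine (sum_B a (fun s => |Fz w y s - 1|) (fun s => abs_nonneg _)).trans ?_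
    refine (mul_le_mul_of_nonneg_left hG hk0).trans ?_
    rw [hT]
    have : 0 ≤ (k : ℝ) * M * x := by positivity
    nlinarith
  have hBc : (B.card : ℝ) ≤ 3 * k * M := by
    have e1 := sum_B (M := M) a (fun _ => (1 : ℝ)) (fun _ => zero_le_one)
    rw [← hB] at e1
    simp only [sum_const, nsmul_eq_mul, mul_one] at e1
    rw [card_Icc_int] at e1
    refine e1.trans ?_
    have : (k : ℝ) * (2 * M + 1) ≤ k * (3 * M) := mul_le_mul_of_nonneg_left (by linarith) hk0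
    linarith
  have hBT : (B.card : ℝ) ≤ T := by
    rw [hT]
    have : 0 ≤ (k : ℝ) * M := by positivity
    linarith
  have hf2 : ∑ g ∈ B, (1 + |Fz w y g.2 - 1|) ≤ T := by
    rw [sum_add_distrib]
    simp only [sum_const, nsmul_eq_mul, mul_one]
    have e2 : ∑ g ∈ B, |Fz w y g.2 - 1| ≤ 2 * k * M := by
      rw [hB]
      refine (sum_B a (fun s => |Fz w y s - 1|) (fun s => abs_nonneg _)).trans ?_
      refine (mul_le_mul_of_nonneg_left hG hk0).trans ?_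
      have : (k : ℝ) * (2 * M * x) = 2 * k * M * x := by ring
      rw [this]
      exact mul_le_of_le_one_right (by positivity) hx1
    have : 0 ≤ (k : ℝ) * M := by positivity
    rw [hT]
    linarith
  have hF1 : ∑ g ∈ B, Fz w y g.2 ≤ T := by
    refine le_trans (sum_le_sum fun g _ => ?_) hf2
    linarith [le_abs_self (Fz w y g.2 - 1)]
  have hF2 : ∑ g ∈ B, Fz w y g.2 ^ 2 ≤ 2 * T := by
    rw [hB]
    refine (sum_B a (fun s => Fz w y s ^ 2) (fun s => sq_nonneg _)).trans ?_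
    have e1 : ∑ s ∈ Icc (-(M : ℤ)) M, Fz w y s ^ 2 ≤
        ∑ s ∈ Icc (-(M : ℤ)) M, (2 * (Fz w y s - 1) ^ 2 + 2) :=
      sum_le_sum fun s _ => Pool.Agent.Y61.SQ.sq_le_two _
    rw [sum_add_distrib, ← mul_sum] at e1
    simp only [sum_const, nsmul_eq_mul] at e1
    rw [card_Icc_int] at e1
    have e2 : (M : ℝ) * x ^ 2 ≤ M := mul_le_of_le_one_right (by positivity) (pow_le_one₀ hx0 hx1)
    have e3 : ∑ s ∈ Icc (-(M : ℤ)) M, Fz w y s ^ 2 ≤ 12 * M := by linarith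
    refine (mul_le_mul_of_nonneg_left e3 hk0).trans ?_
    rw [hT]
    linarith
  obtain ⟨D, hD⟩ : ∃ D : (ℕ × ℤ) × (ℕ × ℤ) → ℝ,
    D = fun z => DR ((1 + 4 * K) ^ (K ^ 2) - 1) w z.1 z.2 - 1 := ⟨_, rfl⟩
  have hD0 : ∀ z, 0 ≤ D z := by intro z; rw [hD]; exact DR_ge _ _ _ _
  have hDs : ∀ g g', D (g, g') = D (g', g) := by
    intro g g'
    rw [hD]
    simp only
    rw [DR_comm]
  have hDb : ∀ g ∈ B, ∑ g' ∈ B.erase g, D (g, g') ≤ T * (C / w) := by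
    intro g hg
    rw [hB, mem_product, mem_image, mem_Zs] at hg
    obtain ⟨⟨j, -, hj⟩, ⟨hg1, hg2⟩, hg3⟩ := hg
    have e0 : g.1 ≤ M := by rw [← hj]; exact (hW.1 j).1
    have e1 : ∑ g' ∈ B.erase g, D (g, g') =
        ∑ a' ∈ univ.image a, ∑ s ∈ (Zs M).filter (fun s => (a', s) ≠ g), D (g, (a', s)) := by
      rw [← filter_ne', hB, sum_filter, sum_product]
      refine sum_congr rfl fun a' _ => ?_
      rw [← sum_filter]
    rw [e1]
    have e2 : ∀ a' ∈ univ.image a,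
        ∑ s ∈ (Zs M).filter (fun s => (a', s) ≠ g), D (g, (a', s)) ≤ C * (M : ℝ) / w := by
      intro a' ha'
      rw [mem_image] at ha'
      obtain ⟨i, -, hi⟩ := ha'
      have := hCO g a' e0 (by rw [← hi]; exact (hW.1 i).1) (abs_le.2 ⟨hg1, hg2⟩) hg3
      rw [hD]
      exact this
    refine (sum_le_sum e2).trans ?_
    simp only [sum_const, nsmul_eq_mul]
    have e3 : 0 ≤ C * (M : ℝ) / w := by positivity
    refine (mul_le_mul_of_nonneg_right (card_A a) e3).trans ?_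
    have e4 : (k : ℝ) * (C * M / w) = (k * M) * (C / w) := by ring
    rw [e4]
    refine mul_le_mul_of_nonneg_right ?_ (by positivity)
    rw [hT]
    have : 0 ≤ (k : ℝ) * M := by positivity
    linarith
  obtain ⟨F, hF⟩ : ∃ F : ℕ × ℤ → ℝ, F = fun g => Fz w y g.2 := ⟨_, rfl⟩
  have hF0 : ∀ g, 0 ≤ F g := by intro g; rw [hF]; exact Fz_nonneg w y g.2
  have hS1 : ∑ U ∈ powersetCard K B, |∏ h ∈ U, F h - 1| ≤ T ^ K * x := by
    refine err_one B K F T x hT0 hx0 ?_ ?_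
    · rw [hF]; exact hf1
    · rw [hF]; exact hf2
  have hS2 : ∑ U ∈ powersetCard K B, (∏ h ∈ U, F h) * ∑ z ∈ U.offDiag, D z ≤
      T ^ K * (2 * (C / w)) := by
    refine err_two B K F D T (C / w) hT0 (by positivity) hF0 hD0 hDb hDs ?_ ?_
    · rw [hF]; exact hF1
    · rw [hF]; exact hF2
  have hS0 : ∑ U ∈ powersetCard K B, (1 : ℝ) ≤ T ^ K := by
    have e1 := esym B K (fun _ => (1 : ℝ)) (fun _ => zero_le_one)
    simp only [prod_const_one] at e1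
    refine e1.trans ?_
    refine pow_le_pow_left₀ (sum_nonneg fun _ _ => zero_le_one) ?_ K
    simp only [sum_const, nsmul_eq_mul, mul_one]
    exact hBT
  obtain ⟨A, hA⟩ : ∃ A : ℝ, A = V1t w y ^ K := ⟨_, rfl⟩
  have hA0 : 0 < A := by rw [hA]; exact pow_pos (Pool.Agent.Y61.SQ.V1t_pos w y) K
  obtain ⟨t, ht⟩ : ∃ t : ℝ, t = 4 * (K : ℝ) ^ 2 / w := ⟨_, rfl⟩
  have ht0 : 0 ≤ t := by rw [ht]; positivity
  have hper : ∀ H ∈ fam a c L r, |VP (un H) y - A * VP (un H) w| ≤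
      A * (t * 1 + |∏ h ∈ un H, F h - 1| + (∏ h ∈ un H, F h) * ∑ z ∈ (un H).offDiag, D z) := by
    intro H hH
    have hc : (un H).card = K := (un_card hW hH).trans hr
    have hsub := un_sub hW hH
    have e1 := h3 (un H) w y (by rw [hc]; exact hw) (by
      intro g hg g' hg' hne
      have h4 := hsub hg
      rw [mem_product, mem_Zs] at h4
      exact Rr_ne g g' h4.2.2 hne)
    rw [hc, ← hA, ← ht] at e1
    have e2 : ∏ h ∈ un H, Fz w y h.2 = ∏ h ∈ un H, F h := by rw [hF]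
    have e3 : ∑ z ∈ (un H).offDiag, (DR ((1 + 4 * K) ^ (K ^ 2) - 1) w z.1 z.2 - 1) =
      ∑ z ∈ (un H).offDiag, D z := by rw [hD]
    rw [VP_split (un H) hwy, mul_one]
    refine abs_core (VP_nonneg _ _) (VP_le_one _ _) hA0.le ht0 (by rw [ht]; exact ht1)
      (prod_nonneg fun h _ => hF0 h) (sum_nonneg fun z _ => hD0 z) ?_ ?_
    · rw [← e2]
      exact e1.1
    · rw [← e2, ← e3]
      exact e1.2
  rw [← hA, ← hT]
  have hg := fam_le (r := r) hW (fun U => t * 1 + |∏ h ∈ U, F h - 1| +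
    (∏ h ∈ U, F h) * ∑ z ∈ U.offDiag, D z) (fun U => by
      have : 0 ≤ (∏ h ∈ U, F h) * ∑ z ∈ U.offDiag, D z :=
        mul_nonneg (prod_nonneg fun h _ => hF0 h) (sum_nonneg fun z _ => hD0 z)
      positivity)
  rw [hr, ← hB] at hg
  have hR : ∑ U ∈ powersetCard K B, (t * 1 + |∏ h ∈ U, F h - 1| +
      (∏ h ∈ U, F h) * ∑ z ∈ U.offDiag, D z) ≤ t * T ^ K + T ^ K * x + T ^ K * (2 * (C / w)) := by
    rw [sum_add_distrib, sum_add_distrib, ← mul_sum]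
    have := mul_le_mul_of_nonneg_left hS0 ht0
    linarith
  have hE : t * T ^ K + T ^ K * x + T ^ K * (2 * (C / w)) ≤
      T ^ K * ((4 * K ^ 2 + 1 + 2 * C) * x) := by
    have e1 : t * T ^ K + T ^ K * x + T ^ K * (2 * (C / w)) =
        T ^ K * ((4 * K ^ 2 + 2 * C) * (w : ℝ)⁻¹ + x) := by
      rw [ht, div_eq_mul_inv, div_eq_mul_inv]
      ring
    rw [e1]
    refine mul_le_mul_of_nonneg_left ?_ (pow_nonneg hT0 K)
    have e2 : (4 * (K : ℝ) ^ 2 + 2 * C) * (w : ℝ)⁻¹ ≤ (4 * (K : ℝ) ^ 2 + 2 * C) * x :=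
      mul_le_mul_of_nonneg_left hxw (by positivity)
    linarith
  calc |∑ H ∈ fam a c L r, VP (un H) y - A * ∑ H ∈ fam a c L r, VP (un H) w|
      = |∑ H ∈ fam a c L r, (VP (un H) y - A * VP (un H) w)| := by
        rw [sum_sub_distrib, ← mul_sum]
    _ ≤ ∑ H ∈ fam a c L r, |VP (un H) y - A * VP (un H) w| := abs_sum_le_sum_abs _ _
    _ ≤ ∑ H ∈ fam a c L r, A * (t * 1 + |∏ h ∈ un H, F h - 1| +
        (∏ h ∈ un H, F h) * ∑ z ∈ (un H).offDiag, D z) := sum_le_sum hper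
    _ = A * ∑ H ∈ fam a c L r, (t * 1 + |∏ h ∈ un H, F h - 1| +
        (∏ h ∈ un H, F h) * ∑ z ∈ (un H).offDiag, D z) := by rw [mul_sum]
    _ ≤ A * (T ^ K * ((4 * K ^ 2 + 1 + 2 * C) * x)) :=
        mul_le_mul_of_nonneg_left (hg.trans (hR.trans hE)) hA0.le

theorem prod_V1 {k : ℕ} (L r : Fin k → ℕ) {w y : ℕ} (hwy : w ≤ y) :
    ∏ j, ((L j * V1 y) ^ r j / (r j).factorial) =
      V1t w y ^ (∑ j, r j) * ∏ j, ((L j * V1 w) ^ r j / (r j).factorial) := by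
  rw [← prod_pow_eq_pow_sum, ← prod_mul_distrib]
  refine prod_congr rfl fun j _ => ?_
  rw [Pool.Agent.Y61.SQ.V1_split hwy]
  ring

set_option maxHeartbeats 4000000 in
theorem t_AVGZ (hM : S_MERT) (h1 : S_FMZ) (h2 : S_COLLR) (h3 : S_TAILZ) (h4 : S_SMALLZ) :
    S_AVGZ := by
  intro k R η hη
  obtain ⟨c, hc0, hc1, hc⟩ := Pool.Agent.Y61.SQ.V1_low hM
  obtain ⟨w0, hFM⟩ := h1
  choose Cf hCf0 hCf using fun K : ℕ => h2 ((1 + 4 * K) ^ (K ^ 2) - 1)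
  obtain ⟨N, hN⟩ : ∃ N : ℕ, N = k * R := ⟨_, rfl⟩
  obtain ⟨Af, hAf⟩ : ∃ Af : ℕ → ℝ, Af = fun K : ℕ =>
    (6 * (k : ℝ)) ^ K * (4 * (K : ℝ) ^ 2 + 1 + 2 * Cf K) + 4 * (K : ℝ) ^ 2 := ⟨_, rfl⟩
  have hAf0 : ∀ K, 0 ≤ Af K := by
    intro K
    rw [hAf]
    have := (hCf0 K).le
    positivity
  obtain ⟨A, hA⟩ : ∃ A : ℝ, A = ∑ K ∈ range (N + 1), Af K := ⟨_, rfl⟩
  have hA0 : 0 ≤ A := by rw [hA]; exact sum_nonneg fun K _ => hAf0 K
  have hAK : ∀ K ≤ N, Af K ≤ A := by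
    intro K hK
    rw [hA]
    exact single_le_sum (f := Af) (fun K _ => hAf0 K) (mem_range.2 (by omega))
  obtain ⟨δ, hδ⟩ : ∃ δ : ℝ, δ = min η 1 / 2 := ⟨_, rfl⟩
  have hδ0 : 0 < δ := by rw [hδ]; have := lt_min hη one_pos; positivity
  have hδη : 2 * δ ≤ η := by rw [hδ]; linarith [min_le_left η 1]
  have hδ1 : 2 * δ ≤ 1 := by rw [hδ]; linarith [min_le_right η 1]
  obtain ⟨w, hw0, hw3, hwA⟩ := Pool.Agent.Y61.SQ.exists_w A hA0 N c δ hc0 hδ0
    (max w0 (4 * N + 2))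
  have hww0 : w0 ≤ w := (le_max_left _ _).trans hw0
  have hwK : 4 * N + 2 ≤ w := (le_max_right _ _).trans hw0
  have hw1 : (1 : ℝ) ≤ w := by exact_mod_cast (by omega : 1 ≤ w)
  have hwpos : (0 : ℝ) < w := by linarith
  obtain ⟨x, hx⟩ : ∃ x : ℝ, x = (√(√(w : ℝ)))⁻¹ := ⟨_, rfl⟩
  have hss : 1 ≤ √(√(w : ℝ)) := by
    rw [Real.one_le_sqrt, Real.one_le_sqrt]
    exact hw1
  have hx0 : 0 < x := by rw [hx]; positivity
  have hx1 : x ≤ 1 := by rw [hx]; exact inv_le_one_of_one_le₀ hss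
  have hx2 : x ^ 2 = (√(w : ℝ))⁻¹ := by
    rw [hx, inv_pow, Real.sq_sqrt (Real.sqrt_nonneg _)]
  have hx4 : (w : ℝ)⁻¹ = x ^ 4 := by
    have : x ^ 4 = (x ^ 2) ^ 2 := by ring
    rw [this, hx2, inv_pow, Real.sq_sqrt hwpos.le]
  have hxw : (w : ℝ)⁻¹ ≤ x := by
    rw [hx4]
    calc x ^ 4 ≤ x ^ 1 := pow_le_pow_of_le_one hx0.le hx1 (by norm_num)
      _ = x := pow_one x
  rw [← hx] at hwA
  have hlog1 : 1 ≤ Real.log w := by
    rw [Real.le_log_iff_exp_le hwpos]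
    have : (3 : ℝ) ≤ w := by exact_mod_cast hw3
    linarith [Real.exp_one_lt_d9]
  obtain ⟨V, hV⟩ : ∃ V : ℝ, V = V1 w := ⟨_, rfl⟩
  have hVpos : 0 < V := by rw [hV]; exact Pool.Agent.Y61.SQ.V1_pos w
  have hV1 : V ≤ 1 := by rw [hV]; exact V1_le_one w
  have hcV : (c / Real.log w) ^ N ≤ V ^ N := by
    rw [hV]
    exact pow_le_pow_left₀ (by positivity) (hc w hw3) N
  have hVN : ∀ K ≤ N, V ^ N ≤ V ^ K := fun K hK => pow_le_pow_of_le_one hVpos.le hV1 hK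
  have hAV : A * x ≤ δ * V ^ N := hwA.trans (by gcongr)
  have hA1 : A * x ≤ δ := hAV.trans (mul_le_of_le_one_right hδ0.le (pow_le_one₀ hVpos.le hV1))
  obtain ⟨M1, hM1⟩ := hFM w hww0
  choose M2 hM2 using fun K : ℕ => hCf K w (by omega)
  obtain ⟨M3, hM3⟩ := h4 k R w (δ * V ^ N) (by positivity)
  refine ⟨w, M1 + (range (N + 1)).sup M2 + M3 + 1, ?_⟩
  intro M hMM y hy a b L r hW hrR
  obtain ⟨K, hK⟩ : ∃ K : ℕ, K = ∑ j, r j := ⟨_, rfl⟩
  have hKN : K ≤ N := by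
    rw [hK, hN]
    calc ∑ j, r j ≤ ∑ _j : Fin k, R := sum_le_sum fun j _ => (hrR j).le
      _ = k * R := by rw [sum_const, card_univ, Fintype.card_fin, smul_eq_mul]
  have hM2' : M2 K ≤ M := by
    have : M2 K ≤ (range (N + 1)).sup M2 := le_sup (f := M2) (mem_range.2 (by omega))
    omega
  have hMpos : (0 : ℝ) < M := by exact_mod_cast (by omega : 0 < M)
  have hAfK : Af K = (6 * (k : ℝ)) ^ K * (4 * (K : ℝ) ^ 2 + 1 + 2 * Cf K) + 4 * (K : ℝ) ^ 2 := by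
    rw [hAf]
  have hC0 := hCf0 K
  have ht1 : 4 * (K : ℝ) ^ 2 / w ≤ 1 := by
    have e1 : 4 * (K : ℝ) ^ 2 ≤ A := by
      refine le_trans ?_ (hAK K hKN)
      rw [hAfK]
      have : 0 ≤ (6 * (k : ℝ)) ^ K * (4 * (K : ℝ) ^ 2 + 1 + 2 * Cf K) := by positivity
      linarith
    calc 4 * (K : ℝ) ^ 2 / w = 4 * (K : ℝ) ^ 2 * (w : ℝ)⁻¹ := div_eq_mul_inv _ _
      _ ≤ A * x := mul_le_mul e1 hxw (by positivity) hA0
      _ ≤ 1 := by linarith
  have hcore := core k K M w y x (Cf K) (by omega) (by omega) hy hx0.le hx1 hC0.le hxw ht1 h3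
    (by
      rw [hx2, ← div_eq_mul_inv]
      exact hM1 M (by omega) y)
    (by
      intro g a' q1 q2 q3 q4
      have q5 := hM2 K M hM2' g a' q1 q2 q3 q4
      refine le_trans (le_of_eq ?_) q5
      refine sum_congr ?_ fun _ _ => rfl
      ext s
      rw [mem_filter, mem_filter, mem_Zs, mem_Icc]
      tauto)
    a b L r hW hK.symm
  have hsm := hM3 M (by omega) a b L r hW hrR
  rw [prod_V1 L r hy, ← hK]
  rw [← hK] at hsm
  obtain ⟨S, hS⟩ : ∃ S : ℝ, S = ∑ H ∈ fam a b L r, VP (un H) y := ⟨_, rfl⟩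
  obtain ⟨S', hS'⟩ : ∃ S' : ℝ, S' = ∑ H ∈ fam a b L r, VP (un H) w := ⟨_, rfl⟩
  obtain ⟨P, hP⟩ : ∃ P : ℝ, P = ∏ j, ((L j * V1 w) ^ r j / (r j).factorial) := ⟨_, rfl⟩
  obtain ⟨Q, hQ⟩ : ∃ Q : ℝ, Q = V1t w y ^ K := ⟨_, rfl⟩
  have hQ0 : 0 < Q := by rw [hQ]; exact pow_pos (Pool.Agent.Y61.SQ.V1t_pos w y) K
  rw [← hS, ← hS', ← hQ] at hcore
  rw [← hS', ← hP] at hsm
  rw [← hS, ← hP, ← hQ]
  have e1 : S - Q * P = (S - Q * S') + Q * (S' - P) := by ring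
  rw [e1]
  refine (abs_add_le _ _).trans ?_
  rw [abs_mul, abs_of_pos hQ0]
  have e2 : Q * |S' - P| ≤ Q * (δ * V ^ N * (M : ℝ) ^ K) := mul_le_mul_of_nonneg_left hsm hQ0.le
  have e3 : (6 * (k : ℝ) * M) ^ K * ((4 * (K : ℝ) ^ 2 + 1 + 2 * Cf K) * x) ≤
      (M : ℝ) ^ K * (δ * V ^ N) := by
    have f1 : (6 * (k : ℝ)) ^ K * (4 * (K : ℝ) ^ 2 + 1 + 2 * Cf K) ≤ A := by
      refine le_trans ?_ (hAK K hKN)
      rw [hAfK]
      have : 0 ≤ 4 * (K : ℝ) ^ 2 := by positivity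
      linarith
    have f2 : (6 * (k : ℝ)) ^ K * (4 * (K : ℝ) ^ 2 + 1 + 2 * Cf K) * x ≤ δ * V ^ N :=
      (mul_le_mul_of_nonneg_right f1 hx0.le).trans hAV
    calc (6 * (k : ℝ) * M) ^ K * ((4 * (K : ℝ) ^ 2 + 1 + 2 * Cf K) * x) =
        (M : ℝ) ^ K * ((6 * (k : ℝ)) ^ K * (4 * (K : ℝ) ^ 2 + 1 + 2 * Cf K) * x) := by
          rw [mul_pow]
          ring
      _ ≤ _ := mul_le_mul_of_nonneg_left f2 (by positivity)
  have e4 : V ^ N ≤ V ^ K := hVN K hKN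
  calc |S - Q * S'| + Q * |S' - P| ≤
      Q * ((M : ℝ) ^ K * (δ * V ^ N)) + Q * (δ * V ^ N * (M : ℝ) ^ K) :=
        add_le_add (hcore.trans (mul_le_mul_of_nonneg_left e3 hQ0.le)) e2
    _ = (2 * δ) * V ^ N * (Q * (M : ℝ) ^ K) := by ring
    _ ≤ η * V ^ K * (Q * (M : ℝ) ^ K) := by
        refine mul_le_mul_of_nonneg_right ?_ (by positivity)
        exact mul_le_mul hδη e4 (by positivity) hη.le
    _ = η * (M * V1 y) ^ K := by
        rw [Pool.Agent.Y61.SQ.V1_split hy, hQ, ← hV]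
        ring

end Pool.Agent.Y872.SQ
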